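import Pool.Agent.Helper28.TK.StV

/-!
# Assembly over `ℤ_p` for the levels `3`, `3p` (`a` odd), `3p²`
-/

set_option autoImplicit false

namespace Pool.Agent.Helper28.TKV

open Pool.Agent.Helper14.CV
open Pool.Agent.Helper28.WK
open Pool.Agent.Helper28.LV
open Pool.Agent.Helper28.TK
open Pool.Agent.Helper28.TH (OkH ALPlus)
open Pool.Agent.Helper28.TK

theorem hZ0 (la : SHLa) (lb : SHLb2) (ui : UIpH) (pol : ZLPol) (uiw : UIWH) (ms : MSH) (rt : RgT)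
    (ru : RgU) (f0 : ZF0) (w1 : ZLW1) (w2 : ZLW2) (w4 : ZLW4) (p : ℕ) (hp : Fact p.Prime)
    (κ : ℤ) (hp2 : p ≠ 3) (hκ : κ ≠ 0)
    (hTA : TAH p κ) (a : ℕ) (Φ : ℤ → ℤ → ℕ → ℤ_[p]) (hW : WSNH p a 0 Φ) : EqC (cp Φ a) 0 := by
  obtain ⟨ψ, hψ1, hψ2, hψ3⟩ := lb la ui p hp κ hp2 hTA 0 (cp Φ a) (hW.hom a (by omega))
    (fun M hM => w1 p hp a 0 Φ hp2 hW M (by omega)) hW.fr
    hW.st (fun M hM ls hls => w4 p hp a 0 Φ hW M (by omega) ls hls)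
  obtain ⟨hb, hc⟩ := w2 p hp a 0 Φ hW
  obtain ⟨hb', hc'⟩ := pol p hp (2 * κ) a 0 (cp Φ a) ψ hp2 (hW.hom a (by omega)) hψ1 hψ2 hψ3 hb hc
  have hI := uiw p hp (2 * κ) 0 (cp Φ a) ψ hp2 hψ1 hψ2 hψ3 hW.fr
  rw [pow_zero, mul_one] at hI
  exact f0 ms rt ru ui p hp (2 * κ) a (cp Φ a) ψ hp2 (mul_ne_zero (by norm_num) hκ) hψ1
    (fun M hM => by simpa using hψ2 M hM) hψ3
    (fun c h => hc c (by simpa using h)) hb' (fun c h => hc' c (by simpa using h)) hI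

theorem hZ1 (la : SHLa) (lb : SHLb2) (ui : UIpH) (pol : ZLPol) (uiw : UIWH) (ms : MSH) (rt : RgT)
    (ru : RgU) (eg : EG) (f1 : ZF1) (w1 : ZLW1) (w2 : ZLW2) (w4 : ZLW4) (p : ℕ)
    (hp : Fact p.Prime) (κ : ℤ) (hp2 : p ≠ 3) (hκ : κ ≠ 0)
    (hTA : TAH p κ) (a : ℕ) (ha : Odd a) (Φ : ℤ → ℤ → ℕ → ℤ_[p])
    (hW : WSNH p a 1 Φ) : EqC (cp Φ a) 0 := by
  obtain ⟨ψ, hψ1, hψ2, hψ3⟩ := lb la ui p hp κ hp2 hTA 1 (cp Φ a) (hW.hom a (by omega))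
    (fun M hM => w1 p hp a 1 Φ hp2 hW M (by omega)) hW.fr
    hW.st (fun M hM ls hls => w4 p hp a 1 Φ hW M (by omega) ls hls)
  obtain ⟨hb, hc⟩ := w2 p hp a 1 Φ hW
  obtain ⟨hb', hc'⟩ := pol p hp (2 * κ) a 1 (cp Φ a) ψ hp2 (hW.hom a (by omega)) hψ1 hψ2 hψ3 hb hc
  have hI := uiw p hp (2 * κ) 1 (cp Φ a) ψ hp2 hψ1 hψ2 hψ3 hW.fr
  rw [pow_one] at hI
  refine f1 ms rt ru eg p hp (2 * κ) a Φ ψ hp2 (mul_ne_zero (by norm_num) hκ) ha ?_ hψ1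
    (fun M hM => by simpa using hψ2 M hM) hψ3
    hb' (fun c h => hc' c (by simpa using h)) hI
  intro α β γ δ hd h2 hg
  have h := hW.eqv α β γ δ hd h2 (by simpa using hg) a (by omega)
  rwa [show 2 * a - a = a by omega] at h

theorem hZ2 (la : SHLa) (lb : SHLb2) (ui : UIpH) (pol : SHPol) (mc : MCH) (rt : RgT)
    (ru : RgU) (eg : EG) (m2b : ZM2B) (av : AVH) (f2 : ZF2) (w1 : SHW1) (w2 : SHW2)
    (w4 : SHW4) (p : ℕ)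
    (hp : Fact p.Prime) (κ : ℤ) (hp2 : p ≠ 3) (hκ : κ ≠ 0)
    (hTA : TAH p κ) (a : ℕ) (Φ : ℤ → ℤ → ℕ → ℤ_[p])
    (hW : WSymH p a 0 Φ) : EqC (cp Φ a) 0 := by
  obtain ⟨ψ, hψ1, hψ2, hψ3⟩ := lb la ui p hp κ hp2 hTA 0 (cp Φ a) (hW.hom a (by omega))
    (fun M hM => w1 p hp a 0 Φ hp2 hW M (by omega)) hW.fr
    hW.st (fun M hM ls hls => w4 p hp a 0 Φ hW M (by omega) ls hls)
  obtain ⟨hb, hc⟩ := w2 p hp a 0 Φ hW
  obtain ⟨hb', hc'⟩ := pol p hp (2 * κ) a 0 (cp Φ a) ψ hp2 (hW.hom a (by omega)) hψ1 hψ2 hψ3 hb hc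
  exact f2 mc rt ru eg m2b av w2 p hp (2 * κ) a Φ ψ hp2 (mul_ne_zero (by norm_num) hκ) hW hψ1
    (fun M hM => by simpa using hψ2 M hM) hψ3
    hb' (fun c h => hc' c (by simpa using h))

/-- Back to the Eichler potentials. -/
theorem hLTr2 (p a n : ℕ) (I : ℤ → ℤ → ℕ → ℂ) (hI : IDnH p a n I)
    (hz : ∀ i : ℕ, i ≤ 2 * a → EqC (cp (PhN a I) i) 0) :
    ∀ i : ℕ, i ≤ 2 * a → ∀ x y : ℤ, (x ≠ 0 ∨ y ≠ 0) →
      I x y i + (-1) ^ (a + i) * I (-x) y i = 0 := by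
  intro i hi x y hxy
  obtain ⟨c, hc⟩ := hz i hi
  have h1 := hc 1 0 (Or.inl one_ne_zero)
  have h2 := hc x y hxy
  have h10 : I 1 0 i = 0 := hI.inf i hi
  have h10' : I (-1) 0 i = 0 := by
    have := hI.hom i hi (-1) 1 0 (by norm_num) (Or.inl one_ne_zero)
    simp only [cp, mul_one, mul_zero] at this
    rw [this, h10]
  simp only [cp, PhN, Pi.zero_apply, zero_add] at h1 h2
  rw [h10, h10', smul_zero, add_zero] at h1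
  rw [← h1] at h2
  rw [← h2, zsmul_eq_mul]
  push_cast
  rfl

end Pool.Agent.Helper28.TKV
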